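import Mathlib

set_option autoImplicit false

namespace Pool.Agent.Lib.MP_d9fe16_an

open Complex

/-- The perturbation parameter at level `x`. -/
noncomputable def eps (M η x : ℝ) : ℝ := η * x ^ 2 * (x - 1) * (M - x)

/-- The coefficient of the quartic term at level `x`. -/
noncomputable def quart (M η x : ℝ) : ℝ := η * ((M - 1) * (M - x) ^ 2 / 2 - (M - x) ^ 3 / 3)

noncomputable def rr (M η x : ℝ) (ζ : ℂ) : ℂ :=
  sqrt (1 + 4 * (eps M η x : ℂ) * ((x : ℂ) ^ 2 * ζ ^ 2))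

noncomputable def ss (M η x : ℝ) (ζ : ℂ) : ℂ := sqrt ((1 + rr M η x ζ) / 2)

noncomputable def ww (M η x : ℝ) (ζ : ℂ) : ℂ := x * ζ / ss M η x ζ

/-- The map at level `x`. -/
noncomputable def GG (M η x : ℝ) (z : ℂ × ℂ) : ℂ × ℂ :=
  (x * z.1 + ((1 / x - 1 / M : ℝ) * ww M η x z.2 ^ 2 + quart M η x * (ww M η x z.2 ^ 2) ^ 2),
    ww M η x z.2)

theorem sq_sqrt' (a : ℂ) : sqrt a ^ 2 = a := cpow_ofNat_inv_pow a 2

theorem re_sqrt_nonneg (a : ℂ) : 0 ≤ (sqrt a).re := by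
  rw [sqrt, cpow_inv_two_re]
  exact Real.sqrt_nonneg _

theorem sqrt_sq' {a : ℂ} (h : 0 < a.re) : sqrt (a ^ 2) = a := sq_cpow_two_inv h

theorem re_pos_of_norm {a : ℂ} (h : ‖a‖ < 1) : 0 < (1 + a).re := by
  have := abs_re_le_norm a
  have := neg_abs_le a.re
  simp only [add_re, one_re]
  linarith

section

variable {M η : ℝ}

theorem half_re_pos (x : ℝ) (ζ : ℂ) : 0 < ((1 + rr M η x ζ) / 2).re := by
  have := re_sqrt_nonneg (1 + 4 * (eps M η x : ℂ) * ((x : ℂ) ^ 2 * ζ ^ 2))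
  rw [div_ofNat_re, add_re, one_re, rr]
  linarith

theorem one_add_rr_ne (x : ℝ) (ζ : ℂ) : 1 + rr M η x ζ ≠ 0 := by
  intro h
  have := half_re_pos (M := M) (η := η) x ζ
  rw [h] at this
  simp at this

theorem ss_ne (x : ℝ) (ζ : ℂ) : ss M η x ζ ≠ 0 := by
  intro h
  have h1 : ss M η x ζ ^ 2 = (1 + rr M η x ζ) / 2 := sq_sqrt' _
  rw [h] at h1
  apply one_add_rr_ne (M := M) (η := η) x ζ
  linear_combination -2 * h1

theorem ww_sq (x : ℝ) (ζ : ℂ) :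
    ww M η x ζ ^ 2 = 2 * ((x : ℂ) ^ 2 * ζ ^ 2) / (1 + rr M η x ζ) := by
  have h1 : ss M η x ζ ^ 2 = (1 + rr M η x ζ) / 2 := sq_sqrt' _
  have h2 := one_add_rr_ne (M := M) (η := η) x ζ
  rw [ww, div_pow, h1]
  field_simp

theorem ww_eqn (x : ℝ) (ζ : ℂ) :
    ww M η x ζ ^ 2 + eps M η x * (ww M η x ζ ^ 2) ^ 2 = (x : ℂ) ^ 2 * ζ ^ 2 := by
  have h1 : rr M η x ζ ^ 2 = 1 + 4 * (eps M η x : ℂ) * ((x : ℂ) ^ 2 * ζ ^ 2) := sq_sqrt' _
  have h2 := one_add_rr_ne (M := M) (η := η) x ζ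
  rw [ww_sq]
  field_simp
  linear_combination (-(x : ℂ) ^ 2 * ζ ^ 2) * h1

theorem norm_ww_sq (x : ℝ) (ζ : ℂ) : ‖ww M η x ζ ^ 2‖ ≤ 2 * (x ^ 2 * ‖ζ‖ ^ 2) := by
  have h1 : 1 ≤ ‖1 + rr M η x ζ‖ := by
    have := half_re_pos (M := M) (η := η) x ζ
    have h3 := re_sqrt_nonneg (1 + 4 * (eps M η x : ℂ) * ((x : ℂ) ^ 2 * ζ ^ 2))
    have h4 := re_le_norm (1 + rr M η x ζ)
    rw [add_re, one_re, rr] at h4
    rw [rr]
    linarith
  rw [ww_sq, norm_div]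
  refine (div_le_self (norm_nonneg _) h1).trans (le_of_eq ?_)
  simp

theorem ww_inj {x : ℝ} (hx : x ≠ 0) {ζ ζ' : ℂ} (h : ww M η x ζ = ww M η x ζ') : ζ = ζ' := by
  have h1 := ww_eqn (M := M) (η := η) x ζ
  have h2 := ww_eqn (M := M) (η := η) x ζ'
  rw [h, h2] at h1
  have h3 : ss M η x ζ = ss M η x ζ' := by rw [ss, ss, rr, rr, h1]
  have h4 := ss_ne (M := M) (η := η) x ζ'
  have hx' : (x : ℂ) ≠ 0 := by exact_mod_cast hx
  rw [ww, ww, h3, div_left_inj' h4] at h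
  exact mul_left_cancel₀ hx' h

theorem GG_inj {x : ℝ} (hx : x ≠ 0) : Function.Injective (GG M η x) := by
  rintro ⟨a, b⟩ ⟨a', b'⟩ h
  simp only [GG, Prod.mk.injEq] at h
  obtain ⟨h1, h2⟩ := h
  have h3 := ww_inj hx h2
  subst h3
  have hx' : (x : ℂ) ≠ 0 := by exact_mod_cast hx
  rw [add_left_inj] at h1
  rw [mul_left_cancel₀ hx' h1]

theorem ww_of_eps {x : ℝ} (h : eps M η x = 0) (ζ : ℂ) : ww M η x ζ = x * ζ := by
  simp [ww, ss, rr, h]

theorem GG_top (z : ℂ × ℂ) : GG M η M z = (M : ℂ) • z := by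
  have h : eps M η M = 0 := by simp [eps]
  ext <;> simp [GG, ww_of_eps h, quart]

theorem GG_one (z : ℂ × ℂ) : GG M η 1 z =
    (z.1 + (1 - 1 / M : ℝ) * z.2 ^ 2 + (η * (M - 1) ^ 3 / 6 : ℝ) * z.2 ^ 4, z.2) := by
  have h : eps M η 1 = 0 := by simp [eps]
  ext
  · simp only [GG, ww_of_eps h, quart]
    push_cast
    ring
  · simp [GG, ww_of_eps h]

theorem abs_mul_le {a b A B : ℝ} (ha : |a| ≤ A) (hb : |b| ≤ B) : |a * b| ≤ A * B := by
  rw [abs_mul]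
  exact mul_le_mul ha hb (abs_nonneg _) ((abs_nonneg _).trans ha)

theorem eps_bound (hM : 1 < M) {x : ℝ} (h1 : 1 ≤ x) (h2 : x ≤ M) :
    |eps M η x| ≤ |η| * M ^ 4 := by
  have a1 : |x ^ 2| ≤ M ^ 2 := by
    rw [abs_of_nonneg (by positivity)]; gcongr
  have a2 : |x - 1| ≤ M := by rw [abs_of_nonneg (by linarith)]; linarith
  have a3 : |M - x| ≤ M := by rw [abs_of_nonneg (by linarith)]; linarith
  have := abs_mul_le (abs_mul_le (abs_mul_le (le_refl |η|) a1) a2) a3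
  rw [eps]
  refine this.trans (le_of_eq ?_)
  ring

theorem eta_bound (hM : 1 < M) (hη : |η| * (100 * M ^ 8) ≤ 1) (c : ℝ) (hc : c ≤ 100) (k : ℕ)
    (hk : k ≤ 8) : |η| * (c * M ^ k) ≤ 1 := by
  refine le_trans ?_ hη
  have : M ^ k ≤ M ^ 8 := pow_le_pow_right₀ hM.le hk
  have h0 : 0 ≤ M ^ k := by positivity
  have : c * M ^ k ≤ 100 * M ^ 8 := by nlinarith
  gcongr

theorem slit (hM : 1 < M) (hη : |η| * (100 * M ^ 8) ≤ 1) {x : ℝ} (h1 : 1 ≤ x) (h2 : x ≤ M)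
    {ζ : ℂ} (hζ : ‖ζ‖ ≤ 1) :
    1 + 4 * (eps M η x : ℂ) * ((x : ℂ) ^ 2 * ζ ^ 2) ∈ slitPlane := by
  left
  apply re_pos_of_norm
  have a1 := eps_bound (η := η) hM h1 h2
  have a2 := eta_bound hM hη 8 (by norm_num) 6 (by norm_num)
  have a3 : x ^ 2 * ‖ζ‖ ^ 2 ≤ M ^ 2 * 1 := by
    gcongr
    exact pow_le_one₀ (norm_nonneg _) hζ
  have : ‖4 * (eps M η x : ℂ) * ((x : ℂ) ^ 2 * ζ ^ 2)‖ = 4 * |eps M η x| * (x ^ 2 * ‖ζ‖ ^ 2) := by
    simp
  rw [this]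
  calc 4 * |eps M η x| * (x ^ 2 * ‖ζ‖ ^ 2) ≤ 4 * (|η| * M ^ 4) * (M ^ 2 * 1) := by gcongr
    _ = |η| * (8 * M ^ 6) / 2 := by ring
    _ < 1 := by linarith

/-- The images increase with the level. -/
theorem GG_nested (hM : 1 < M) (hη : |η| * (100 * M ^ 8) ≤ 1) {x x' : ℝ} (h1 : 1 ≤ x)
    (hx : x ≤ x') (h2 : x' ≤ M) {z : ℂ × ℂ} (hz1 : ‖z.1‖ < 1) (hz2 : ‖z.2‖ < 1) :
    ∃ z' : ℂ × ℂ, ‖z'.1‖ < 1 ∧ ‖z'.2‖ < 1 ∧ GG M η x' z' = GG M η x z := by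
  have hx0 : 0 < x := by linarith
  have hx0' : 0 < x' := by linarith
  have hx0c : (x : ℂ) ≠ 0 := by exact_mod_cast hx0.ne'
  have hx0c' : (x' : ℂ) ≠ 0 := by exact_mod_cast hx0'.ne'
  have hM0 : 0 < M := by linarith
  set w := ww M η x z.2 with hw
  set y := w ^ 2 with hy
  set d := x' - x with hd
  have hd0 : 0 ≤ d := by linarith
  have hζ2 : ‖z.2‖ ^ 2 < 1 := pow_lt_one₀ (norm_nonneg _) hz2 (by norm_num)
  have hY : ‖y + eps M η x * y ^ 2‖ < x ^ 2 := by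
    rw [hy, hw, ww_eqn]
    have : ‖(x : ℂ) ^ 2 * z.2 ^ 2‖ = x ^ 2 * ‖z.2‖ ^ 2 := by simp
    rw [this]
    have : 0 < x ^ 2 := by positivity
    nlinarith
  have hy2 : ‖y‖ ≤ 2 * M ^ 2 := by
    refine (norm_ww_sq x z.2).trans ?_
    have : x ^ 2 * ‖z.2‖ ^ 2 ≤ M ^ 2 * 1 := by gcongr; linarith
    linarith
  have hy4 : ‖y‖ ^ 2 ≤ 4 * M ^ 4 := by
    calc ‖y‖ ^ 2 ≤ (2 * M ^ 2) ^ 2 := by gcongr
      _ = _ := by ring
  -- a perturbation lemma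
  have hpert : ∀ c P : ℝ, c = eps M η x + η * d * P → |P| ≤ 20 * M ^ 3 →
      ‖y + c * y ^ 2‖ < x ^ 2 + d := by
    intro c P hc hP
    have e : y + c * y ^ 2 = (y + eps M η x * y ^ 2) + (η * d * P : ℝ) * y ^ 2 := by
      rw [hc]; push_cast; ring
    have b1 : ‖((η * d * P : ℝ) : ℂ) * y ^ 2‖ ≤ d := by
      rw [norm_mul, norm_pow, norm_real, Real.norm_eq_abs, abs_mul, abs_mul, abs_of_nonneg hd0]
      have a2 := eta_bound hM hη 80 (by norm_num) 7 (by norm_num)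
      calc |η| * d * |P| * ‖y‖ ^ 2 ≤ |η| * d * (20 * M ^ 3) * (4 * M ^ 4) := by gcongr
        _ = |η| * (80 * M ^ 7) * d := by ring
        _ ≤ 1 * d := by gcongr
        _ = d := one_mul d
    rw [e]
    exact (norm_add_le _ _).trans_lt (by linarith)
  have bx : |x| ≤ M := by rw [abs_of_pos hx0]; linarith
  have bx' : |x'| ≤ M := by rw [abs_of_pos hx0']; linarith
  have bM : |M| ≤ M := by rw [abs_of_pos hM0]
  have bm : |M - x| ≤ M := by rw [abs_of_nonneg (by linarith)]; linarith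
  have bm' : |M - x'| ≤ M := by rw [abs_of_nonneg (by linarith)]; linarith
  have bM1 : |M - 1| ≤ M := by rw [abs_of_nonneg (by linarith)]; linarith
  have bx1 : |x - 1| ≤ M := by rw [abs_of_nonneg (by linarith)]; linarith
  have hM3 : 0 < M ^ 3 := by positivity
  -- second coordinate
  have hY' : ‖y + eps M η x' * y ^ 2‖ < x' ^ 2 := by
    have := hpert (eps M η x') (x' * (x' * (M - x')) + (x * ((x - 1) * (M - x')) +
      x' * ((x - 1) * (M - x'))) - x * (x * (x - 1))) (by simp only [eps, hd]; ring) (by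
        have c1 := abs_le.mp (abs_mul_le bx' (abs_mul_le bx' bm'))
        have c2 := abs_le.mp (abs_mul_le bx (abs_mul_le bx1 bm'))
        have c3 := abs_le.mp (abs_mul_le bx' (abs_mul_le bx1 bm'))
        have c4 := abs_le.mp (abs_mul_le bx (abs_mul_le bx bx1))
        have e : M * (M * M) = M ^ 3 := by ring
        rw [e] at c1 c2 c3 c4
        rw [abs_le]
        constructor <;> linarith)
    have : x ^ 2 + d ≤ x' ^ 2 := by rw [hd]; nlinarith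
    linarith
  have hεy : ‖(eps M η x' : ℂ) * y‖ < 1 / 2 := by
    have a1 := eps_bound (η := η) hM (h1.trans hx) h2
    have a2 := eta_bound hM hη 8 (by norm_num) 6 (by norm_num)
    rw [norm_mul, norm_real, Real.norm_eq_abs]
    calc |eps M η x'| * ‖y‖ ≤ |η| * M ^ 4 * (2 * M ^ 2) := by gcongr
      _ = |η| * (8 * M ^ 6) / 4 := by ring
      _ < 1 / 2 := by linarith
  set ζ' : ℂ := w * sqrt (1 + eps M η x' * y) / x' with hζ'
  have hζ'sq : (x' : ℂ) ^ 2 * ζ' ^ 2 = y + eps M η x' * y ^ 2 := by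
    rw [hζ', div_pow, mul_pow, sq_sqrt', ← hy]
    field_simp
  have hr' : rr M η x' ζ' = 1 + 2 * (eps M η x' * y) := by
    rw [rr, hζ'sq, ← sqrt_sq' (a := 1 + 2 * (eps M η x' * y))]
    · congr 1; ring
    · apply re_pos_of_norm
      rw [norm_mul]
      simp only [Complex.norm_ofNat]
      linarith
  have hs' : ss M η x' ζ' = sqrt (1 + eps M η x' * y) := by
    rw [ss, hr']; congr 1; ring
  have hw' : ww M η x' ζ' = w := by
    have := ss_ne (M := M) (η := η) x' ζ'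
    rw [ww, div_eq_iff this, hs', hζ']
    field_simp
  have hζ'n : ‖ζ'‖ < 1 := by
    rw [← hζ'sq] at hY'
    have e : ‖(x' : ℂ) ^ 2 * ζ' ^ 2‖ = x' ^ 2 * ‖ζ'‖ ^ 2 := by simp
    rw [e] at hY'
    have : ‖ζ'‖ ^ 2 < 1 := by
      have : 0 < x' ^ 2 := by positivity
      nlinarith
    exact (pow_lt_one_iff_of_nonneg (norm_nonneg _) (by norm_num)).mp this
  -- first coordinate
  set q : ℝ := (M - 1) * ((M - x) + (M - x')) / 2 -
    ((M - x) ^ 2 + (M - x) * (M - x') + (M - x') ^ 2) / 3 with hq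
  have hA : ‖y + (η * (x * x' * q) : ℝ) * y ^ 2‖ < x ^ 2 + d := by
    refine hpert _ (x * ((M - 1) * (M - x)) / 2 + x * ((M - 1) * (M - x')) / 2
      - x * ((M - x) * (M - x)) / 3 - x * ((M - x) * (M - x')) / 3 - x * ((M - x') * (M - x')) / 3
      - x * (x * (M - 1)) / 2 + 2 * (x * (x * (M - x))) / 3 + x * (x * (M - x')) / 3)
      (by simp only [eps, hd, hq]; ring) ?_
    have c1 := abs_le.mp (abs_mul_le bx (abs_mul_le bM1 bm))
    have c2 := abs_le.mp (abs_mul_le bx (abs_mul_le bM1 bm'))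
    have c3 := abs_le.mp (abs_mul_le bx (abs_mul_le bm bm))
    have c4 := abs_le.mp (abs_mul_le bx (abs_mul_le bm bm'))
    have c5 := abs_le.mp (abs_mul_le bx (abs_mul_le bm' bm'))
    have c6 := abs_le.mp (abs_mul_le bx (abs_mul_le bx bM1))
    have c7 := abs_le.mp (abs_mul_le bx (abs_mul_le bx bm))
    have c8 := abs_le.mp (abs_mul_le bx (abs_mul_le bx bm'))
    have e : M * (M * M) = M ^ 3 := by ring
    rw [e] at c1 c2 c3 c4 c5 c6 c7 c8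
    rw [abs_le]
    constructor <;> linarith
  set a' : ℂ := (x * z.1 + (d / (x * x') : ℝ) * (y + (η * (x * x' * q) : ℝ) * y ^ 2)) / x'
    with ha'
  refine ⟨(a', ζ'), ?_, hζ'n, ?_⟩
  · change ‖a'‖ < 1
    rw [ha', norm_div, norm_real, Real.norm_eq_abs, abs_of_pos hx0', div_lt_one hx0']
    have b1 : ‖(x : ℂ) * z.1‖ < x := by
      rw [norm_mul, norm_real, Real.norm_eq_abs, abs_of_pos hx0]
      nlinarith
    have hxx : 0 < x * x' := mul_pos hx0 hx0'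
    have b2 : ‖((d / (x * x') : ℝ) : ℂ) * (y + (η * (x * x' * q) : ℝ) * y ^ 2)‖ ≤ d := by
      rw [norm_mul, norm_real, Real.norm_eq_abs, abs_of_nonneg (div_nonneg hd0 hxx.le)]
      have : x ^ 2 + d ≤ x * x' := by rw [hd]; nlinarith
      calc d / (x * x') * _ ≤ d / (x * x') * (x * x') := by
            gcongr
            linarith
        _ = d := by field_simp
    refine (norm_add_le _ _).trans_lt ?_
    linarith
  · have hMc : (M : ℂ) ≠ 0 := by exact_mod_cast hM0.ne'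
    ext
    · simp only [GG, hw', ← hw, ← hy, ha', quart, hq, hd]
      push_cast
      field_simp
      ring
    · simp only [GG, hw', ← hw]

theorem ww_diffAt (hM : 1 < M) (hη : |η| * (100 * M ^ 8) ≤ 1) {x : ℝ} (h1 : 1 ≤ x) (h2 : x ≤ M)
    {ζ : ℂ} (hζ : ‖ζ‖ ≤ 1) : DifferentiableAt ℂ (ss M η x) ζ := by
  have a1 : DifferentiableAt ℂ (rr M η x) ζ :=
    (differentiableAt_sqrt (slit hM hη h1 h2 hζ)).comp ζ
      (f := fun ζ : ℂ => 1 + 4 * (eps M η x : ℂ) * ((x : ℂ) ^ 2 * ζ ^ 2)) (by fun_prop)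
  exact (differentiableAt_sqrt (Or.inl (half_re_pos x ζ))).comp ζ
    (f := fun ζ : ℂ => (1 + rr M η x ζ) / 2) (by fun_prop)

theorem GG_diffAt (hM : 1 < M) (hη : |η| * (100 * M ^ 8) ≤ 1) {x : ℝ} (h1 : 1 ≤ x) (h2 : x ≤ M)
    {z : ℂ × ℂ} (hz : ‖z.2‖ ≤ 1) : DifferentiableAt ℂ (GG M η x) z := by
  have a1 := ww_diffAt hM hη h1 h2 hz
  have a2 : DifferentiableAt ℂ (ww M η x) z.2 :=
    DifferentiableAt.div (by fun_prop) a1 (ss_ne x z.2)
  have a3 : DifferentiableAt ℂ (fun z : ℂ × ℂ => ww M η x z.2) z :=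
    a2.comp z differentiableAt_snd
  unfold GG
  fun_prop

theorem GG_zero (x : ℝ) : GG M η x 0 = 0 := by
  simp [GG, ww]

theorem GG_fderiv (hM : 1 < M) (hη : |η| * (100 * M ^ 8) ≤ 1) {x : ℝ} (h1 : 1 ≤ x) (h2 : x ≤ M) :
    HasFDerivAt (GG M η x) ((x : ℂ) • ContinuousLinearMap.id ℂ (ℂ × ℂ)) 0 := by
  have a1 := (ww_diffAt hM hη h1 h2 (ζ := 0) (by simp)).hasDerivAt
  have s0 : ss M η x 0 = 1 := by simp [ss, rr]
  have w0 : ww M η x 0 = 0 := by simp [ww]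
  have a2 : HasDerivAt (ww M η x) x 0 := by
    have := ((hasDerivAt_id (0 : ℂ)).const_mul (x : ℂ)).div a1 (ss_ne x 0)
    refine HasDerivAt.congr_deriv this ?_
    simp [s0]
  have a3 : HasDerivAt (fun ζ => ((1 / x - 1 / M : ℝ) : ℂ) * ww M η x ζ ^ 2 +
      quart M η x * (ww M η x ζ ^ 2) ^ 2) 0 0 := by
    have := ((a2.pow 2).const_mul ((1 / x - 1 / M : ℝ) : ℂ)).add
      (((a2.pow 2).pow 2).const_mul (quart M η x : ℂ))
    refine HasDerivAt.congr_deriv this ?_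
    simp [w0]
  have b2 := a2.hasFDerivAt.comp (0 : ℂ × ℂ) (hasFDerivAt_snd (𝕜 := ℂ) (p := (0 : ℂ × ℂ)))
  have b3 := a3.hasFDerivAt.comp (0 : ℂ × ℂ) (hasFDerivAt_snd (𝕜 := ℂ) (p := (0 : ℂ × ℂ)))
  have b1 := (hasFDerivAt_fst (𝕜 := ℂ) (p := (0 : ℂ × ℂ))).const_mul (x : ℂ)
  refine HasFDerivAt.congr_fderiv ((b1.add b3).prodMk b2) ?_
  ext <;> simp

theorem GG_contOn (hM : 1 < M) (hη : |η| * (100 * M ^ 8) ≤ 1) :
    ContinuousOn (fun p : ℝ × (ℂ × ℂ) => ((p.1 : ℂ))⁻¹ • GG M η p.1 p.2)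
      (Set.Icc 1 M ×ˢ Metric.closedBall 0 1) := by
  rintro ⟨x, z⟩ ⟨⟨h1, h2⟩, hz⟩
  apply ContinuousAt.continuousWithinAt
  have hz2 : ‖z.2‖ ≤ 1 := (norm_snd_le z).trans (mem_closedBall_zero_iff.mp hz)
  have hx0 : x ≠ 0 := by simp only at h1; linarith
  have hx0c : (x : ℂ) ≠ 0 := by exact_mod_cast hx0
  have a1 : ContinuousAt (fun p : ℝ × (ℂ × ℂ) => rr M η p.1 p.2.2) (x, z) :=
    ContinuousAt.comp (g := sqrt)
      (f := fun p : ℝ × (ℂ × ℂ) => 1 + 4 * (eps M η p.1 : ℂ) * ((p.1 : ℂ) ^ 2 * p.2.2 ^ 2))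
      (differentiableAt_sqrt (slit hM hη h1 h2 hz2)).continuousAt (by unfold eps; fun_prop)
  have a2 : ContinuousAt (fun p : ℝ × (ℂ × ℂ) => ss M η p.1 p.2.2) (x, z) :=
    ContinuousAt.comp (g := sqrt) (f := fun p : ℝ × (ℂ × ℂ) => (1 + rr M η p.1 p.2.2) / 2)
      (differentiableAt_sqrt (Or.inl (half_re_pos x z.2))).continuousAt (by fun_prop)
  have a3 : ContinuousAt (fun p : ℝ × (ℂ × ℂ) => ww M η p.1 p.2.2) (x, z) :=
    ContinuousAt.div (by fun_prop) a2 (ss_ne x z.2)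
  have a4 : ContinuousAt (fun p : ℝ × (ℂ × ℂ) => ((p.1 : ℂ))⁻¹) (x, z) :=
    ContinuousAt.inv₀ (by fun_prop) hx0c
  have a5 : ContinuousAt (fun p : ℝ × (ℂ × ℂ) => 1 / p.1) (x, z) :=
    ContinuousAt.div (by fun_prop) (by fun_prop) hx0
  unfold GG quart
  fun_prop

end

end Pool.Agent.Lib.MP_d9fe16_an
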